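import Pool.Agent.H236R2.HB.Seeds
import Pool.Agent.H236R2.HB.Comb

set_option autoImplicit false

open Finset Pool.Agent.H273R2.Bent Pool.Agent.H236R2.HB

/-! # Homogeneous bent functions of degree four

For all large even `n` there is a bent function in `n` variables which is homogeneous of degree `4`.

Construction: take a permutation `π` of `F_2^r` of the form
`π_i(d) = κ_i(d + 1_{B_i}) + g_i(d)`, where `κ_i` is homogeneous of degree `3`, `g_i` is homogeneous of
degree `2`, and every monomial of `κ_i` (of `g_i`) meets every `B_l`, `l ≠ i` (every `B_l`) in at most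
one variable.  With `M` copies of the variables `z_i, y_i`, linear forms
`d_{m,j} = y_{m,j} + ∑_{l : j ∈ B_l} z_{m,l} + ∑_a z_{m-δ_a,j}` and a Sidon set of shifts `δ_a` mod `M`,
the function
`∑_{m,i} z_{m,i} κ_i(d_m + z_{m,i} 1_{B_i}) + ∑_{m,i} g_i(d_m) maj(d_{m+δ_a,i} + z_{m,i} : a = 1,2,3)`
is a sum of products of four linear forms with disjoint supports, hence homogeneous of degree `4`, and it
is a Maiorana-McFarland function with the permutation `π × ... × π` in the linear coordinates `(z, d)`.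
Two such permutations (`r = 6` and `r = 7`) give all large even `n`. -/

namespace Pool.Agent.Results.MP_47443c_co.DegreeFour

theorem result : ∃ N : ℕ, 2 ≤ N ∧ ∀ n : ℕ, N < n → Even n →
    ∃ S : Finset (Finset (Fin n)), (∀ s ∈ S, s.card = 4) ∧
      ∀ c : Fin n → ZMod 2,
        (∑ x : Fin n → ZMod 2,
            (-1 : ℤ) ^ (ZMod.val ((∑ s ∈ S, ∏ i ∈ s, x i) + ∑ i : Fin n, c i * x i))) ^ 2
          = 2 ^ n := by
  obtain ⟨N6, h6⟩ := hb_of_seed s6
  obtain ⟨N7, h7⟩ := hb_of_seed s7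
  refine ⟨2 * (13 * (N6 + N7 + 1) + 35), by omega, fun n hn hev => ?_⟩
  obtain ⟨h, rfl⟩ := hev
  obtain ⟨a, b, ha, hb, hab⟩ : ∃ a b : ℕ, N7 < a ∧ N6 < b ∧ h = 7 * a + 6 * b := by
    refine ⟨(h - 13 * (N6 + N7 + 1)) % 6 + (N6 + N7 + 1),
      ((h - 13 * (N6 + N7 + 1)) - 7 * ((h - 13 * (N6 + N7 + 1)) % 6)) / 6 + (N6 + N7 + 1), ?_, ?_, ?_⟩
      <;> omega
  have ia : NeZero a := ⟨by omega⟩
  have ib : NeZero b := ⟨by omega⟩
  have H : HB 4 (VV a 7 ⊕ VV b 6) := HB.sum (by norm_num) (h7 a ha ia) (h6 b hb ib)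
  have hc : Fintype.card (VV a 7 ⊕ VV b 6) = h + h := by
    simp only [Fintype.card_sum, Fintype.card_prod, ZMod.card, Fintype.card_fin]
    omega
  obtain ⟨S, hS, hbS⟩ := H.equiv (Fintype.equivFinOfCardEq hc)
  refine ⟨S, hS, fun c => ?_⟩
  have := hbS c
  rw [Fintype.card_fin] at this
  exact this

end Pool.Agent.Results.MP_47443c_co.DegreeFour
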