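import Pool.Agent.H273R2.Bent.Main

set_option autoImplicit false

open Finset

/-! # Homogeneous bent functions of every degree `2^a + 1`

For every `a` and all large even `n` there is a bent function in `n` variables which is homogeneous of
degree `2^a + 1`.

Construction: `φ` is the iterated majority of three (homogeneous of degree `2^a` in `w = 3^a` variables,
`φ(v+1) = φ(v)+1`), `d_i = y_i + ∑_j z_{i-δ_j}` with a Sidon type set of shifts `δ_1, ..., δ_w` modulo `m`,
and `F(z,y) = ∑_i d_i φ(d_{i+δ_1} + z_i, ..., d_{i+δ_w} + z_i)`.  Every factor is a sum of variables and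
the supports of the factors in a term are disjoint, so `F` is homogeneous; and
`F = h(d) + ∑_i z_i d_i` is a Maiorana-McFarland function in the linear coordinates `(z, d)`. -/

namespace Pool.Agent.Results.MP_47443c_co.PowerOfTwoPlusOne

theorem result : ∀ a : ℕ, ∃ N : ℕ, 2 ≤ N ∧ ∀ n : ℕ, N < n → Even n →
    ∃ S : Finset (Finset (Fin n)), (∀ s ∈ S, s.card = 2 ^ a + 1) ∧
      ∀ c : Fin n → ZMod 2,
        (∑ x : Fin n → ZMod 2,
            (-1 : ℤ) ^ (ZMod.val ((∑ s ∈ S, ∏ i ∈ s, x i) + ∑ i : Fin n, c i * x i))) ^ 2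
          = 2 ^ n := by
  intro a
  obtain ⟨N, hN⟩ := Pool.Agent.H273R2.Bent.exists_bent a
  refine ⟨2 * N + 2, by omega, fun n hn hev => ?_⟩
  obtain ⟨m, rfl⟩ := hev
  have hm : N < m := by omega
  have : NeZero m := ⟨by omega⟩
  obtain ⟨S, hS, hb⟩ := hN m hm this
  have hcard : Fintype.card (ZMod m ⊕ ZMod m) = m + m := by
    rw [Fintype.card_sum, ZMod.card]
  let e : ZMod m ⊕ ZMod m ≃ Fin (m + m) := Fintype.equivFinOfCardEq hcard
  refine ⟨S.map (Finset.mapEmbedding e.toEmbedding).toEmbedding, ?_, ?_⟩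
  · intro s hs
    rw [mem_map] at hs
    obtain ⟨t, ht, rfl⟩ := hs
    show (t.map e.toEmbedding).card = _
    rw [card_map]
    exact hS t ht
  · intro c
    have h1 := hb (fun i => c (e i))
    have h2 : (2 : ℤ) ^ (m + m) = 2 ^ (2 * m) := by rw [two_mul]
    rw [h2, ← h1]
    congr 1
    refine (Fintype.sum_equiv (Equiv.arrowCongr e.symm (Equiv.refl (ZMod 2))) _ _ fun x => ?_)
    show _ = Pool.Agent.H273R2.Bent.chi _
    rw [Pool.Agent.H273R2.Bent.chi]
    congr 3
    · rw [sum_map]
      refine sum_congr rfl fun s _ => ?_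
      show ∏ i ∈ s.map e.toEmbedding, x i = _
      rw [prod_map]
      rfl
    · rw [← e.sum_comp]
      rfl

end Pool.Agent.Results.MP_47443c_co.PowerOfTwoPlusOne
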